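import Pool.Agent.T2h12.TN.OG
import Pool.Agent.T2h12.TN.F

/-!
Special varieties and commuting étale self-correspondences: the Iitaka dimensions of the rank one
sheaves of tensor differentials are at most the dimension minus the growth rank of the
correspondences.
-/

set_option autoImplicit false

open FF Pool.Agent.W602.GT Pool.Agent.W603.LV Pool.Agent.Y172 Pool.Agent.R887 Pool.Agent.N110
open Pool.Agent.T2h12 Pool.Agent.T2h12.TN

/-- Let `Y` be a normal projective variety of dimension `n > 0` with function field `K`, and `Ω` an
algebraic extension of `K` (for instance an algebraic closure). Let `ℤ ^ r` act on `Ω` by the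
automorphisms `g u` over `ℂ`, which need not preserve `K`. Every `g u` is a branch of an algebraic,
multi-valued self-map of `Y`: of the irreducible correspondence `Γ_u` with the function field
`K ⊔ (g u) K`, with the projections `p_u`, `q_u` to `Y` given by the inclusion of `K` and by `g u`
(`OM.pr₁`, `OM.pr₂`). Suppose that, for the generators `u` of `ℤ ^ r`, both projections of `Γ_u` are
unramified over all the divisorial valuations of `K` (`UnramAll`). If `Y` is smooth this means, by
the purity of the branch locus, that both projections of the normalisation of the correspondence in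
its function field which are finite over `Y` are étale.

Let `X` be a projective manifold, of any dimension `d`, with a dominant rational map `Y ⇢ X`, given
by the inclusion `ι` of the function field `M` of `X` (for instance `X` birational to `Y`); the
correspondences need not descend to `X`.

Let `s` be at most the growth rank of the normalised degrees
`D(u) = (q_u^* H) · (p_u^* H) ^ (n - 1) / deg p_u`: every linear subspace of `ℝ ^ r` along which `D`
grows subexponentially has codimension at least `s` (`OM.GrowthRankGe`).

Then `s ≤ n`, and every rank one subsheaf of a tensor power `(Ω¹)^(⊗ m)`, `m ≥ 0`, of the cotangent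
sheaf of `X` (for instance the canonical sheaf, which is contained in `(Ω¹)^(⊗ d)`) has Iitaka
dimension `≤ n - s`. If `s = n` then `X` is special. -/
theorem Pool.Agent.Results.MP_9410e4_ag.CommutingEtale.result
    {K M Ω : Type} [Field K] [Algebra ℂ K] [Field M] [Algebra ℂ M] [Field Ω] [Algebra ℂ Ω]
    [Algebra K Ω] [IsScalarTower ℂ K Ω] [Algebra.IsAlgebraic K Ω] {N n d : ℕ}
    {y : Fin (N + 1) → K} (hy : NormalModel y) (hn : Algebra.trdeg ℂ K = n) (hn0 : 0 < n)
    (hM : Algebra.EssFiniteType ℂ M) (hd : Algebra.trdeg ℂ M = d) (ι : M →ₐ[ℂ] K)
    {r s : ℕ} {g : (Fin r → ℤ) → (Ω ≃ₐ[ℂ] Ω)} (hg : ∀ u v, g (u + v) = g u * g v)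
    (hp : ∀ i, UnramAll n (OM.pr₁ K (g (Pi.single i 1))) ∧
      UnramAll n (OM.pr₂ K (g (Pi.single i 1))))
    (hs : OM.GrowthRankGe (fun v => (OM.corrDegree (g v) y n 1).toReal) s) :
    s ≤ n ∧ (∀ j, n < s + j → ¬ TensorSheaf ℂ M d j) ∧
      (s = n → Special ℂ M d (fun _ => False)) := by
  have h1 : ∀ j, TensorSheaf ℂ M d j → s + j ≤ n := fun j hT =>
    tensor_rank hy hn hn0 (TensorSheaf.image hM hd hn ι hT) hg hp hs
  refine ⟨?_, fun j hj hT => ?_, fun hs => special_of_tensor fun hT => ?_⟩
  · have h2 : TensorSheaf ℂ M d 0 := by
      refine ⟨0, MultilinearMap.constOfIsEmpty M _ 1, fun _ => 1, fun h => ?_, one_ne_zero, ?_,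
        fun P _ D _ l => Or.inr ?_⟩
      · have h3 := congrArg (fun T => T fun _ => 0) h
        simp at h3
      · exact algebraicIndependent_empty_type
      · simp [P.ord_one]
    have := h1 0 h2
    omega
  · have := h1 j hT
    omega
  · have := h1 1 hT
    omega
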