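import Pool.Agent.T2h12.TN.Y

/-!
Special varieties and commuting dominant rational self-maps, not necessarily invertible: the Iitaka
dimensions of the rank one sheaves of tensor differentials are at most the dimension minus the growth
rank of the maps.
-/

set_option autoImplicit false

open FF Pool.Agent.W602.GT Pool.Agent.Y172 Pool.Agent.R887 Pool.Agent.N110 Pool.Agent.T2h12
open Pool.Agent.T2h12.TN

/-- Let `Y` be a normal projective variety of dimension `n > 0` with an action of `ℕ ^ r` by dominant
rational self-maps `f_v` (commuting dominant rational self-maps `f_1, ..., f_r`, invertible or not),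
given by the endomorphisms `φ v = f_v^*` of the function field `K`, and let `X` be a projective
manifold, of any dimension `d`, with a dominant rational map `Y ⇢ X`, given by the inclusion `ι` of
the function field `M` of `X` (for instance `X` birational to `Y`); the maps need not descend to `X`.
Let `s` be at most the growth rank: for `u` in `ℤ ^ r` with positive part `v` and negative part `w`
the degree `D(u)` of the correspondence `f_v ∘ f_w⁻¹` is `f_v^* H · (f_w^* H) ^ (n - 1) / deg f_w`,
and `D` grows subexponentially only along linear subspaces of `ℝ ^ r` of codimension at least `s`. For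
instance `s = r` if `max (D(u), D(-u)) ≥ c exp (δ |u|)` for some `c, δ > 0`.

Then `s ≤ n`, and every rank one subsheaf of a tensor power `(Ω¹)^(⊗ m)`, `m ≥ 0`, of the cotangent
sheaf of `X` (for instance the canonical sheaf, which is contained in `(Ω¹)^(⊗ d)`) has Iitaka
dimension `≤ n - s`. If `s = n` then `X` is special.

In the proof one shows that there is a dominant rational map from `Y` to a variety `Z` in a
projective space, of dimension at least the Iitaka dimension of the sheaf, such that all dominant
rational self-maps of `Y` act on `Z` by linear automorphisms (`fixed_space`). -/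
theorem Pool.Agent.Results.MP_9410e4_ag.CommutingSpecial.result
    {K M : Type} [Field K] [Algebra ℂ K] [Field M] [Algebra ℂ M] {N n d : ℕ}
    {y : Fin (N + 1) → K} (hy : NormalModel y) (hn : Algebra.trdeg ℂ K = n) (hn0 : 0 < n)
    (hM : Algebra.EssFiniteType ℂ M) (hd : Algebra.trdeg ℂ M = d) (ι : M →ₐ[ℂ] K)
    {r s : ℕ} {φ : (Fin r → ℕ) → (K →ₐ[ℂ] K)} (hφ : ∀ u v, φ (u + v) = φ u * φ v)
    (hrank : SE.CorrRankGe φ y n s ∨ (s = r ∧ SE.CorrExpGrowth φ y n)) :
    s ≤ n ∧ (∀ j, n < s + j → ¬ TensorSheaf ℂ M d j) ∧
      (s = n → Special ℂ M d (fun _ => False)) := by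
  have hrank' : SE.CorrRankGe φ y n s := by
    rcases hrank with h | ⟨rfl, h⟩
    · exact h
    · exact SE.corrRank_of_exp h
  have h1 : ∀ j, TensorSheaf ℂ M d j → s + j ≤ n := fun j hT =>
    rank_tensor hy hn hn0 (TensorSheaf.image hM hd hn ι hT) hφ hrank'
  refine ⟨?_, fun j hj hT => ?_, fun hs => special_of_tensor fun hT => ?_⟩
  · have h2 : TensorSheaf ℂ M d 0 := by
      refine ⟨0, MultilinearMap.constOfIsEmpty M _ 1, fun _ => 1, fun h => ?_, one_ne_zero, ?_,
        fun P _ D _ l => Or.inr ?_⟩
      · have h3 := congrArg (fun T => T fun _ => 0) h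
        simp at h3
      · exact algebraicIndependent_empty_type
      · simp [P.ord_one]
    have := h1 0 h2
    omega
  · have := h1 j hT
    omega
  · have := h1 1 hT
    omega
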