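import Pool.Agent.T2h12.TN.OF
import Pool.Agent.T2h12.TN.F

/-!
Special varieties and étale self-correspondences: joint dynamical degrees and the degrees of random
products.
-/

set_option autoImplicit false

open FF Pool.Agent.W602.GT Pool.Agent.W603.LV Pool.Agent.Y172 Pool.Agent.R887 Pool.Agent.N110
open Pool.Agent.T2h12 Pool.Agent.T2h12.TN

/-- Let `Y` be a normal projective variety of dimension `n > 0` with function field `K`, and `Ω` an
algebraic extension of `K` (for instance an algebraic closure). Let `S` be a set of automorphisms `g`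
of `Ω` over `ℂ`, which need not preserve `K`. Every `g` is a branch of an algebraic, multi-valued
self-map of `Y`: of the irreducible correspondence with the function field `K ⊔ g K`, with the
projections to `Y` given by the inclusion of `K` and by `g` (`OM.pr₁`, `OM.pr₂`); if `Ω` is
algebraically closed then all the irreducible correspondences which are generically finite over both
factors occur. Suppose that both projections are unramified over all the divisorial valuations of `K`
(`UnramAll`). If `Y` is smooth this means, by the purity of the branch locus, that both projections of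
the normalisation of the correspondence in the function field `K ⊔ g K` which are finite over `Y` are
étale; for instance all the birational self-maps of `Y`, the étale self-maps of smooth models of `Y`
and their inverses, and all the pairs of étale coverings `Z → Y`, `Z → Y` are allowed.

Let `X` be a projective manifold, of any dimension `d`, with a dominant rational map `Y ⇢ X`, given
by the inclusion `ι` of the function field `M` of `X` (for instance `X` birational to `Y`); the
correspondences need not descend to `X`. Let `1 ≤ j ≤ n`, and suppose one of the following.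

(1) The normalised degrees `q^* H · (p^* H) ^ (n - 1) / deg p` of the correspondences in `S` are
bounded, and the greatest of the joint dynamical degrees `λ 0, ..., λ n` of `S` is not attained at
`j + 1` consecutive indices.

(2) `S = {g_1, ..., g_r}`, the branches are taken at random with probabilities `w i`, and the
greatest of the growth rates `λ 0, ..., λ n` of the means of exponent `s ≥ 0` of the normalised
degrees `(q^* H) ^ p · (p^* H) ^ (n - p) / deg p` of the random products (for `s = 0` the
exponentials of the Lyapunov exponents of the degrees) is not attained at `j + 1` consecutive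
indices.

Then every rank one subsheaf of a tensor power `(Ω¹)^(⊗ m)`, `m ≥ 0`, of the cotangent sheaf of `X`
(for instance the canonical sheaf, which is contained in `(Ω¹)^(⊗ d)`) has Iitaka dimension `< j`.
If `j = 1` then `X` is special. -/
theorem Pool.Agent.Results.MP_9410e4_ag.EtaleCorrespondences.result
    {K M Ω : Type} [Field K] [Algebra ℂ K] [Field M] [Algebra ℂ M] [Field Ω] [Algebra ℂ Ω]
    [Algebra K Ω] [IsScalarTower ℂ K Ω] [Algebra.IsAlgebraic K Ω] {N n d : ℕ}
    {y : Fin (N + 1) → K} (hy : NormalModel y) (hn : Algebra.trdeg ℂ K = n) (hn0 : 0 < n)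
    (hM : Algebra.EssFiniteType ℂ M) (hd : Algebra.trdeg ℂ M = d) (ι : M →ₐ[ℂ] K)
    {S : Set (Ω ≃ₐ[ℂ] Ω)}
    (hS : ∀ g ∈ S, UnramAll n (OM.pr₁ K g) ∧ UnramAll n (OM.pr₂ K g)) {j : ℕ}
    (hmaps :
      (∃ C : ℕ, (∀ g ∈ S, OM.corrDegree g y n 1 ≤ C) ∧
        ∀ i, i + j ≤ n → ∃ a ≤ j, ∃ p ≤ n,
          OM.corrJoint S y n (i + a) < OM.corrJoint S y n p) ∨
      (∃ (r : ℕ) (g : Fin r → (Ω ≃ₐ[ℂ] Ω)) (w : Fin r → ℝ) (s : ℝ), Set.range g = S ∧
        (∀ i, 0 ≤ w i) ∧ ∑ i, w i = 1 ∧ 0 ≤ s ∧
        ∀ i, i + j ≤ n → ∃ a ≤ j, ∃ p ≤ n,
          OM.corrRandom g w y n s (i + a) < OM.corrRandom g w y n s p)) :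
    ¬ TensorSheaf ℂ M d j ∧ (j = 1 → Special ℂ M d (fun _ => False)) := by
  have h1 : ¬ TensorSheaf ℂ M d j := by
    intro hT
    have hT' := hT.image hM hd hn ι
    rcases hmaps with ⟨C, hC, hdeg⟩ | ⟨r, g, w, s, hf, hw, hw1, hs, hdeg⟩
    · obtain ⟨k, hk, h⟩ := tensor_joint hy hn hn0 hT' hS hC
      obtain ⟨a, ha, p, hp, hlt⟩ := hdeg k hk
      exact absurd hlt (not_lt.2 (h a ha p hp))
    · subst hf
      obtain ⟨k, hk, h⟩ := tensor_random hy hn hn0 hT' (fun i => hS _ ⟨i, rfl⟩) hw hw1 hs
      obtain ⟨a, ha, p, hp, hlt⟩ := hdeg k hk
      exact absurd hlt (not_lt.2 (h a ha p hp))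
  exact ⟨h1, fun h => special_of_tensor (h ▸ h1)⟩
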