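import Pool.Agent.T2h12.TN.F
import Pool.Agent.T2h12.Rnd

/-!
Special varieties and sets of dominant rational self-maps, not necessarily invertible or commuting:
joint dynamical degrees and the degrees of random products.
-/

set_option autoImplicit false

open FF Pool.Agent.W602.GT Pool.Agent.Y172 Pool.Agent.R887 Pool.Agent.N110 Pool.Agent.T2h12
open Pool.Agent.T2h12.TN

/-- Let `Y` be a normal projective variety of dimension `n > 0`, `S` a set of dominant rational
self-maps of `Y`, invertible or not, which need not commute, given by the endomorphisms `φ = f^*` of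
the function field `K`, and `X` a projective manifold, of any dimension `d`, with a dominant rational
map `Y ⇢ X`, given by the inclusion `ι` of the function field `M` of `X` (for instance `X` birational
to `Y`); the maps in `S` need not descend to `X`. Let `1 ≤ j ≤ n`, and suppose one of the following.

(1) The degrees `f^* H · H ^ (n - 1)` of the maps in `S` are bounded, and the greatest of the joint
dynamical degrees `λ 0, ..., λ n` of `S` is not attained at `j + 1` consecutive indices.

(2) `S = {f_1, ..., f_r}`, the maps are taken at random with probabilities `w i`, and the greatest of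
the growth rates `λ 0, ..., λ n` of the means of exponent `s ≥ 0` of the degrees
`(g^* H) ^ p · H ^ (n - p)` of the random products `g` (for `s = 1` the expected degrees, for `s = 0`
the exponentials of the Lyapunov exponents of the degrees) is not attained at `j + 1` consecutive
indices.

Then every rank one subsheaf of a tensor power `(Ω¹)^(⊗ m)`, `m ≥ 0`, of the cotangent sheaf of `X`
(for instance the canonical sheaf, which is contained in `(Ω¹)^(⊗ d)`) has Iitaka dimension `< j`.
If `j = 1` then `X` is special. -/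
theorem Pool.Agent.Results.MP_9410e4_ag.SelfMapsSpecial.result
    {K M : Type} [Field K] [Algebra ℂ K] [Field M] [Algebra ℂ M] {N n d : ℕ}
    {y : Fin (N + 1) → K} (hy : NormalModel y) (hn : Algebra.trdeg ℂ K = n) (hn0 : 0 < n)
    (hM : Algebra.EssFiniteType ℂ M) (hd : Algebra.trdeg ℂ M = d) (ι : M →ₐ[ℂ] K)
    {S : Set (K →ₐ[ℂ] K)} {j : ℕ} (hj : j ≤ n)
    (hmaps :
      (∃ B : ℕ, (∀ φ ∈ S, selfDegree φ y n 1 ≤ B) ∧
        ∀ i, i + j ≤ n → ∃ a ≤ j, ∃ p ≤ n,
          selfJointDegree S y n (i + a) < selfJointDegree S y n p) ∨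
      (∃ (r : ℕ) (f : Fin r → (K →ₐ[ℂ] K)) (w : Fin r → ℝ) (s : ℝ), Set.range f = S ∧
        (∀ i, 0 ≤ w i) ∧ ∑ i, w i = 1 ∧ 0 ≤ s ∧
        ∀ i, i + j ≤ n → ∃ a ≤ j, ∃ p ≤ n,
          randomDegree f w y n s (i + a) < randomDegree f w y n s p)) :
    ¬ TensorSheaf ℂ M d j ∧ (j = 1 → Special ℂ M d (fun _ => False)) := by
  classical
  obtain ⟨i, hi⟩ := hy.ne
  have h1 : ¬ TensorSheaf ℂ M d j := by
    intro hT
    rcases hmaps with ⟨B, hB, hdeg⟩ | ⟨r, f, w, s, hf, hw, hw1, hs, hdeg⟩
    · obtain ⟨k, hk, h⟩ := hasC_plateau hy hn hi (hasC_tensor hy hn hn0 hi hM hd ι hT (C₁ := B)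
        (S := S) fun φ hφ => by
          have h3 := hB φ hφ
          rw [selfDegree_eq hy hn hi φ (by omega : 1 ≤ n), Nat.cast_le, Multiset.replicate_one,
            Multiset.singleton_add] at h3
          exact h3)
      obtain ⟨a, ha, p, hp, hlt⟩ := hdeg k hk
      exact absurd hlt (not_lt.2 (h a ha p hp))
    · subst hf
      have hC₁ : ∀ φ ∈ Set.range f, I (eCls hy hn hi φ (hcls hy hi) ::ₘ
          Multiset.replicate (n - 1) (hcls hy hi)) ≤ Finset.univ.sup fun j =>
            I (eCls hy hn hi (f j) (hcls hy hi) ::ₘ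
              Multiset.replicate (n - 1) (hcls hy hi)) := by
        rintro _ ⟨j, rfl⟩
        exact Finset.le_sup (f := fun j => I (eCls hy hn hi (f j) (hcls hy hi) ::ₘ
          Multiset.replicate (n - 1) (hcls hy hi))) (Finset.mem_univ j)
      obtain ⟨k, hk, h⟩ := random_plateau hy hn hi hw hw1 hs hj
        (hasC_tensor hy hn hn0 hi hM hd ι hT hC₁)
      obtain ⟨a, ha, p, hp, hlt⟩ := hdeg k hk
      exact absurd hlt (not_lt.2 (h a ha p hp))
  exact ⟨h1, fun h => special_of_tensor (h ▸ h1)⟩
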